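import Mathlib
import Pool.Agent.H984R3.ConvDefs
import Pool.Agent.W225.CG.Geom
import Pool.Agent.W225.CG.BDim
import Pool.Agent.Y350.CG.Abs
import Pool.Agent.Y350.CG.BurlF

/-!
# One family of convex geometries with bounded Boolean and local dimension, without large standard
examples, and with unbounded fractional dimension

The geometries come from triangle-free families of boxes in space; the vertical coordinate is used
twice, once in each direction.
-/

namespace Pool.Agent.Results.MP_d1e448_co.OneFamily

open Pool.Agent.H984R3.ConvDefs Pool.Agent.H984R3.Burl Pool.Agent.W225.CG Pool.Agent.Y350.CG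

/-- the key of a box: upper faces in the three coordinates, and minus the lower face in the
vertical one -/
def ky (b : Box) (a : Fin 4) : ℚ := ![b.x1, b.y1, b.z1, - b.z0] a

/-- `b` lies strictly before `c` -/
def bef (a : Fin 4) (b c : Box) : Prop :=
  ![b.x1 < c.x0, b.y1 < c.y0, b.z1 < c.z0, c.z1 < b.z0] a

/-- The ordered data of a finite family of boxes: four coordinates, the last one reversed. -/
def data {W : Type} {n : ℕ} (e : W ≃ Fin n) (b : W → Box) (hb : ∀ w, (b w).Unit) :
    Data (Fin 4) W (ℚ ×ₗ Fin n) where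
  key := fun a w => toLex (ky (b w) a, e w)
  inj := by
    intro a v w h
    have := congrArg (fun z => (ofLex z).2) h
    exact e.injective this
  ll := fun a v w => bef a (b v) (b w)
  ll_down := by
    intro a u v w huv h
    rw [Prod.Lex.toLex_le_toLex] at huv
    have h1 : ky (b u) a ≤ ky (b v) a := by
      rcases huv with h' | h'
      · exact h'.le
      · exact h'.1.le
    fin_cases a <;> simp [ky, bef] at h1 h ⊢ <;> linarith
  ll_lt := by
    intro a v w h
    rw [Prod.Lex.toLex_lt_toLex]
    left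
    obtain ⟨_, v1, _, _, v2, _, _, v3, _⟩ := hb v
    obtain ⟨_, w1, _, _, w2, _, _, w3, _⟩ := hb w
    change ky (b v) a < ky (b w) a
    fin_cases a <;> simp [ky, bef] at h ⊢ <;> linarith

theorem adj_iff {W : Type} {n : ℕ} (e : W ≃ Fin n) (b : W → Box) (hb : ∀ w, (b w).Unit)
    (v w : W) : (data e b hb).Adj v w ↔ v ≠ w ∧ (b v).Meets (b w) := by
  unfold Data.Adj
  refine and_congr_right fun _ => ?_
  constructor
  · intro h
    have h0 := h 0
    have h1 := h 1
    have h2 := h 2
    simp [data, bef] at h0 h1 h2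
    exact ⟨h0.2, h0.1, h1.2, h1.1, h2.2, h2.1⟩
  · rintro ⟨m1, m2, m3, m4, m5, m6⟩ a
    fin_cases a <;> simp [data, bef] <;> constructor <;> assumption

/-- For every `k` there is a convex geometry on fewer than `5 * 2 ^ 2 ^ (k + 1)` points which has
Boolean dimension at most `8`, local dimension at most `6`, no standard example with seven pairs,
dimension larger than `k` and fractional dimension at least `(k + 1) / 2`. -/
theorem result : ∀ k : ℕ, ∃ (X : Type) (_ : Finite X) (C : Set (Set X)),
    IsConvexGeometry C ∧ Nat.card X < 5 * 2 ^ 2 ^ (k + 1) ∧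
    BooleanDimLE C 8 ∧ LocalDimLE C 6 ∧ (∀ n, HasStandardExample C n → n ≤ 6) ∧
    ¬ DimLE C k ∧ ∀ t : ℝ, FracDimLE C t → ((k : ℝ) + 1) / 2 ≤ t := by
  intro k
  obtain ⟨W, hW, b, hb, htri, hcol, hfr, hzne, hzz, hcard⟩ := exists_boxesF k
  have := Fintype.ofFinite W
  have hne : Nonempty W := by
    by_contra hcon
    rw [not_nonempty_iff] at hcon
    obtain ⟨v, _⟩ := hcol (fun w => isEmptyElim w)
    exact hcon.false v
  classical
  let D := data (Fintype.equivFin W) b hb
  have hD : ∀ v w, D.Adj v w ↔ v ≠ w ∧ (b v).Meets (b w) := adj_iff _ b hb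
  have htri' : ∀ u v w, D.Adj u v → D.Adj v w → D.Adj u w → False := by
    intro u v w h1 h2 h3
    rw [hD] at h1 h2 h3
    exact htri u v w h1.1 h2.1 h3.1 h1.2 h2.2 h3.2
  -- the index: position in the vertical order
  let idx : W → ℕ := fun w => {v | D.key 2 v < D.key 2 w}.ncard
  have hmono : ∀ v w, D.key 2 v < D.key 2 w → idx v < idx w := by
    intro v w h
    refine Set.ncard_lt_ncard ⟨fun u hu => lt_trans hu h, fun hcon => ?_⟩ (Set.toFinite _)
    have h2 : D.key 2 v < D.key 2 v := hcon h
    exact lt_irrefl _ h2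
  have hmono' : ∀ v w, idx v < idx w → D.key 2 v < D.key 2 w := by
    intro v w h
    by_contra hcon
    rw [not_lt] at hcon
    rcases hcon.lt_or_eq with h1 | h1
    · exact absurd (hmono _ _ h1) (not_lt.2 h.le)
    · rw [D.inj 2 h1] at h
      exact lt_irrefl _ h
  have hidx : Function.Injective idx := by
    intro v w h
    by_contra hcon
    rcases lt_or_gt_of_ne (fun e => hcon (D.inj 2 e)) with h1 | h1
    · exact absurd h (ne_of_lt (hmono _ _ h1))
    · exact absurd h (ne_of_gt (hmono _ _ h1))
  have hz : ∀ v w, D.Adj v w → idx v < idx w → (b v).z1 < (b w).z1 := by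
    intro v w hadj h
    have h1 := hmono' v w h
    rw [hD] at hadj
    have h2 := hzne v w hadj.1 hadj.2
    have h3 : toLex ((b v).z1, (Fintype.equivFin W) v) < toLex ((b w).z1, (Fintype.equivFin W) w) :=
      h1
    rw [Prod.Lex.toLex_lt_toLex] at h3
    rcases h3 with h3 | h3
    · exact h3
    · exact absurd h3.1 h2
  have H : ∀ u v w, D.Adj u v → D.Adj v w → idx u < idx v → idx v < idx w →
      (∃ a, D.ll a u w) ∧ (∃ a, D.ll a w u) := by
    intro u v w h1 h2 l1 l2
    have z1 := hz u v h1 l1
    have z2 := hz v w h2 l2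
    rw [hD] at h1 h2
    have h := hzz w v u h2.1.symm h1.1.symm h2.2.symm h1.2.symm z1 z2
    exact ⟨⟨2, h⟩, ⟨3, h⟩⟩
  refine ⟨W ⊕ (Fin 4 × W), inferInstance, D.closed, closed_geometry D, ?_, ?_, ?_, ?_, ?_, ?_⟩
  · rw [Nat.card_sum, Nat.card_prod, Nat.card_eq_fintype_card (α := Fin 4), Fintype.card_fin]
    omega
  · have h := Pool.Agent.Y350.CG.booleanDimLE D idx hidx H htri'
    simpa using h
  · have h := Pool.Agent.Y350.CG.localDimLE D htri'
    simpa using h
  · intro n hn
    have h := Pool.Agent.Y350.CG.standardExample_le D htri' hn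
    simpa using h
  · refine not_dimLE D ?_
    intro c
    obtain ⟨v, w, hvw, hm, hc⟩ := hcol c
    exact ⟨v, w, (hD v w).2 ⟨hvw, hm⟩, hc⟩
  · intro t ht
    have h := Pool.Agent.Y350.CG.fracDim_ge D (k := k + 1) (fun m s φ hs hφ =>
      hfr m s φ hs (fun v w hvw hm => hφ v w ((hD v w).2 ⟨hvw, hm⟩))) ht
    push_cast at h
    exact h

end Pool.Agent.Results.MP_d1e448_co.OneFamily
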